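import Pool.Agent.H62.EntK

namespace Pool.Agent.Results.MP_7216ee_lc.K5
open Pool.Agent.H62.EntK

/-- The linear form with coefficients `a` on singletons and `b` on pairs `i < j`. -/
def form {n : ℕ} (a : Fin n → ℝ) (b : Fin n → Fin n → ℝ) (f : Finset (Fin n) → ℝ) : ℝ :=
  ∑ i, a i * f {i} + ∑ i, ∑ j, if i < j then b i j * f {i, j} else 0

def gN (S : Finset (Fin 5)) : ℕ :=
  let T : Finset (Fin 5) := if 4 ∈ S then (S.erase 4) ∪ {2, 3} else S
  if T.card = 0 then 0 else if T.card = 1 then 2 else if T = {0, 1} then 4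
  else if T.card = 2 then 3 else 4

theorem result : ∃ (n : ℕ) (a : Fin n → ℝ) (b : Fin n → Fin n → ℝ),
    (∀ f, Entropic f → 0 ≤ form a b f) ∧ ∃ f, Polymatroid f ∧ form a b f < 0 := by
  have e : ∀ f, form ![-1, 0, -2, -2, -5] ![![0, -1, 3, 3, -4], ![0, 0, 1, 1, -1],
      ![0, 0, 0, -2, 5], ![0, 0, 0, 0, 5], ![0, 0, 0, 0, 0]] f =
      (3 * f {0, 2} + 3 * f {0, 3} + f {1, 2} + f {1, 3} + 5 * f {2, 4} + 5 * f {3, 4}) -
      (f {0} + 2 * f {2} + 2 * f {3} + f {0, 1} + 4 * f {0, 4} + f {1, 4} + 5 * f {4} +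
      2 * f {2, 3}) := by
    intro f
    simp [form, Fin.sum_univ_five]
    ring
  refine ⟨5, _, _, fun f hf => by rw [e]; exact sub_nonneg.2 (ent_ineq hf), fun S => gN S,
    ⟨by simp [gN], fun _ => by positivity, ?_, ?_⟩, ?_⟩
  · have : ∀ S T, S ⊆ T → gN S ≤ gN T := by decide +kernel
    exact fun S T h => by beta_reduce; exact_mod_cast this S T h
  · have : ∀ S T, gN (S ∩ T) + gN (S ∪ T) ≤ gN S + gN T := by decide +kernel
    exact fun S T => by beta_reduce; exact_mod_cast this S T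
  · rw [e, sub_neg]
    have : 3 * gN {0, 2} + 3 * gN {0, 3} + gN {1, 2} + gN {1, 3} + 5 * gN {2, 4} + 5 * gN {3, 4} <
      gN {0} + 2 * gN {2} + 2 * gN {3} + gN {0, 1} + 4 * gN {0, 4} + gN {1, 4} + 5 * gN {4} +
      2 * gN {2, 3} := by decide +kernel
    exact_mod_cast this

end Pool.Agent.Results.MP_7216ee_lc.K5
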